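import Pool.Agent.V5helper94.WB.Wt

/-!
# The weight-monodromy conjecture for schemes which are built from schemes of small dimension
-/

set_option autoImplicit false

open CategoryTheory CategoryTheory.Limits AlgebraicGeometry Pool.Agent.Y116.UV
  Pool.Agent.V5helper77.GW Pool.Agent.V5helper77.WM Pool.Agent.V5helper94.SV

namespace Pool.Agent.V5helper94.WB

variable {Ω : Type} [Field Ω] [CharZero Ω]

/-- All `Gr^W_w H^i_c(X_{K̄})` are mw pure of weight `w`, for all schemes `X` over `F` which are built from
schemes of dimension at most `n`. -/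
def BuiltUpTo {F : Type} [Field F] (T : Motives F Ω) (q n : ℕ) : Prop :=
  ∀ X : Sch F, Built F n X → T.AllPure q X

/-- The known properties of the tensor product `ten` of motives over the local fields `K`:

* `theory`: the Künneth formula and the direct summands for finite free coverings, see
  `IsTensorTheory`;
* `pure` (Deligne, Weil II, 1.6.9): the realization of a tensor product is the tensor product of the
  realizations, and the tensor product of two mw pure representations of weights `w`, `w'` is mw pure
  of weight `w + w'`. -/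
structure IsTensor (ℓ : ℕ) (T : Data Ω)
    (ten : ∀ B : Trait, (T.loc B).C → (T.loc B).C → (T.loc B).C) : Prop where
  theory : ∀ B : Trait, B.p ≠ ℓ → IsTensorTheory (T.loc B).V (T.loc B).tw (ten B)
  pure : ∀ B : Trait, B.p ≠ ℓ → ∀ (w w' : ℤ) (M N : (T.loc B).C),
    ((T.loc B).real M).IsPure B.q w → ((T.loc B).real N).IsPure B.q w' →
      ((T.loc B).real (ten B M N)).IsPure B.q (w + w')

variable {ℓ : ℕ} {T : Data Ω} {ten : ∀ B : Trait, (T.loc B).C → (T.loc B).C → (T.loc B).C}

theorem smProj_iff_built (hT : IsTheory ℓ T) (hten : IsTensor ℓ T ten)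
    (hH : ∀ (k : Type) [Field k] [CharZero k], Hironaka k) (B : Trait) (hB : B.p ≠ ℓ) {n : ℕ}
    (hn : 1 ≤ n) : (T.loc B).SmProjUpTo B.q n ↔ BuiltUpTo (T.loc B) B.q n :=
  graded_built_iff (hten.theory B hB) (twistClass (q_ne B) (hT.loc B hB)) (hten.pure B hB)
    (point_pure (q_ne B) (hT.loc B hB)) (hH B.K) hn

theorem built_two (hT : IsTheory ℓ T) (hten : IsTensor ℓ T ten)
    (hH : ∀ (k : Type) [Field k] [CharZero k], Hironaka k) (B : Trait) (hB : B.p ≠ ℓ) :
    BuiltUpTo (T.loc B) B.q 2 :=
  (smProj_iff_built hT hten hH B hB (by norm_num)).mp (hT.surfaces B hB)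

end Pool.Agent.V5helper94.WB
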