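import Pool.Agent.V5helper94.SV.Sep
import Pool.Agent.V5helper77.WM.Main

/-!
# Classes of motives with weights which are closed under tensor products
-/

set_option autoImplicit false

open CategoryTheory CategoryTheory.Limits AlgebraicGeometry Pool.Agent.Y116.UV Pool.Agent.Z125.UN
  Pool.Agent.Q193.LT Pool.Agent.V5helper77.GW Pool.Agent.V5helper52.SF Pool.Agent.V5helper94.SV
  TensorProduct

universe v u

namespace Pool.Agent.V5helper94.WB

variable {k : Type} [Field k] {C : Type u} [Category.{v} C] [Abelian C]
  {V : ℤ → ℤ → Sch k → C} {tw : ℤ → C → C} {ten : C → C → C} {S : ℤ → C → Prop}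

open scoped ZeroObject in
lemma sumObj_mem (hS : IsTwistClass S tw) (w : ℤ) (L : List C) (h : ∀ M ∈ L, S w M) :
    S w (sumObj L) := by
  induction L with
  | nil => exact hS.zero w _ (isZero_zero C)
  | cons M L ih =>
    exact hS.sum w (h M List.mem_cons_self) (ih fun N hN => h N (List.mem_cons_of_mem _ hN))

/-- The closure properties `Cls` of the schemes all of whose graded pieces have a property which is
closed under tensor products (the weights are added). -/
theorem cls_graded [PerfectField k] (hV : IsTensorTheory V tw ten) (hS : IsTwistClass S tw)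
    (ht : ∀ (w w' : ℤ) (M N : C), S w M → S w' N → S (w + w') (ten M N))
    (h1 : AllPieces V S (aff k k)) (hH : Hironaka k)
    (hc : ∀ X : Sch k, IsSmProj X → topologicalKrullDim X.left ≤ 1 → ∀ i : ℤ, S i (V i i X)) :
    Cls True (AllPieces V S) where
  toBnd := bnd_pieces hV.toIsWeightTheory hS h1
  prod A B _ _ _ _ _ _ hA hB w n := by
    obtain ⟨L, ⟨e⟩⟩ := hV.kunneth A B w n
    refine hS.retract w e.hom e.inv e.hom_inv_id (sumObj_mem hS w _ ?_)
    intro M hM
    obtain ⟨q, _, rfl⟩ := List.mem_map.mp hM
    have h2 := ht q.1 (w - q.1) _ _ (hA q.1 q.2) (hB (w - q.1) (n - q.2))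
    rwa [add_sub_cancel] at h2
  free A B _ _ _ _ _ _ _ N hN hb h w n := by
    obtain ⟨s, r, hs⟩ := hV.cover A B N hN hb w n
    exact hS.retract w s r hs (h w n)
  curve A _ _ _ hA := by
    refine (graded_iff hV.toIsWeightTheory hS h1 hH 1).1.mp ?_ (aff k A) (ft_aff True) ?_
    · intro X hX hd i
      exact hc X hX (by exact_mod_cast hd) i
    · rw [topDim_aff]
      exact_mod_cast hA

/-- The smooth projective varieties of dimension at most `d` and the schemes which are built from schemes
of dimension at most `d`. -/
theorem graded_built_iff [PerfectField k] (hV : IsTensorTheory V tw ten) (hS : IsTwistClass S tw)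
    (ht : ∀ (w w' : ℤ) (M N : C), S w M → S w' N → S (w + w') (ten M N))
    (h1 : AllPieces V S (aff k k)) (hH : Hironaka k) {d : ℕ} (hd : 1 ≤ d) :
    (∀ X : Sch k, IsSmProj X → topologicalKrullDim X.left ≤ d → ∀ i : ℤ, S i (V i i X)) ↔
      ∀ X : Sch k, Built k d X → AllPieces V S X := by
  constructor
  · intro h X hX
    refine built_le (P := AllPieces V S) (cls_graded hV hS ht h1 hH fun Y hY hd1 i =>
      h Y hY (hd1.trans (by exact_mod_cast hd)) i) ?_ hX
    exact (graded_iff hV.toIsWeightTheory hS h1 hH d).1.mp h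
  · intro h X hX hd1 i
    have hp := hX.proper
    exact h X (.dim ⟨inferInstance, inferInstance, fun _ => inferInstance⟩ hd1) i i

end Pool.Agent.V5helper94.WB
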